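import Pool.Agent.Run7.h717.SA.Iface

set_option autoImplicit false

/-! Project SA (helper717), piece ONE, by helper701 (copy of Pool/Agent/Run7/h701/SA/ONE.lean) -/

namespace Pool.Agent.Run7.h717.SA.H701

open MeasureTheory ProbabilityTheory Filter Topology
open scoped ENNReal
open Pool.Agent.Run7.h717.SA

/-- the Gaussian density -/
noncomputable def g (x : ℝ) : ℝ := gaussianPDFReal 0 1 x

lemma g_eq (x : ℝ) : g x = (√(2 * Real.pi))⁻¹ * Real.exp (-x ^ 2 / 2) := by
  unfold g
  rw [gaussianPDFReal_def]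
  simp

lemma s2_pos : 0 < √(2 * Real.pi) := Real.sqrt_pos.2 (by positivity)

lemma g_pos (x : ℝ) : 0 < g x := by
  rw [g_eq]
  have := s2_pos
  positivity

lemma g_le (x : ℝ) : g x ≤ (√(2 * Real.pi))⁻¹ := by
  rw [g_eq]
  have h1 := s2_pos
  refine mul_le_of_le_one_right (by positivity) (Real.exp_le_one_iff.2 ?_)
  have := sq_nonneg x
  linarith

lemma g_int : Integrable g := integrable_gaussianPDFReal 0 1

lemma q_eq (u : ℝ) : q u = ∫ x in Set.Icc (-u) u, g x := by
  unfold q Measure.real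
  rw [gaussianReal_apply_eq_integral 0 one_ne_zero, ENNReal.toReal_ofReal]
  · rfl
  · exact integral_nonneg fun x => (g_pos x).le

lemma q_nn (u : ℝ) : 0 ≤ q u := measureReal_nonneg
lemma q_le1 (u : ℝ) : q u ≤ 1 := measureReal_le_one

lemma q_mono : Monotone q := fun _ _ h => measureReal_mono (Set.Icc_subset_Icc (neg_le_neg h) h)

lemma vol_Icc {u : ℝ} (hu : 0 ≤ u) : (volume : Measure ℝ).real (Set.Icc (-u) u) = 2 * u := by
  rw [Measure.real, Real.volume_Icc, ENNReal.toReal_ofReal (by linarith)]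
  ring

/-- the constant `2/√(2π)` -/
noncomputable def c2 : ℝ := 2 * (√(2 * Real.pi))⁻¹

lemma c2_pos : 0 < c2 := by
  have := s2_pos
  unfold c2
  positivity

lemma q_le {u : ℝ} (hu : 0 ≤ u) : q u ≤ c2 * u := by
  rw [q_eq]
  have h1 : ∫ x in Set.Icc (-u) u, g x ≤ ∫ _x in Set.Icc (-u) u, (√(2 * Real.pi))⁻¹ :=
    setIntegral_mono g_int.integrableOn continuous_const.integrableOn_Icc g_le
  refine h1.trans (le_of_eq ?_)
  rw [setIntegral_const, vol_Icc hu, smul_eq_mul]
  unfold c2
  ring

lemma q_lo {u : ℝ} (hu : 0 ≤ u) : c2 * u * Real.exp (-u ^ 2 / 2) ≤ q u := by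
  rw [q_eq]
  have h1 : ∫ _x in Set.Icc (-u) u, (√(2 * Real.pi))⁻¹ * Real.exp (-u ^ 2 / 2) ≤ ∫ x in Set.Icc (-u) u, g x := by
    refine setIntegral_mono_on continuous_const.integrableOn_Icc g_int.integrableOn measurableSet_Icc fun x hx => ?_
    rw [g_eq]
    have h2 := s2_pos
    refine mul_le_mul_of_nonneg_left (Real.exp_le_exp.2 ?_) (by positivity)
    have h3 : x ^ 2 ≤ u ^ 2 := sq_le_sq' hx.1 hx.2
    linarith
  refine le_trans (le_of_eq ?_) h1
  rw [setIntegral_const, vol_Icc hu, smul_eq_mul]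
  unfold c2
  ring

lemma q_ge {u : ℝ} (hu : 0 ≤ u) : min u 1 / 4 ≤ q u := by
  have h1 : ∀ v : ℝ, 0 ≤ v → v ≤ 1 → v / 4 ≤ q v := by
    intro v hv hv1
    refine le_trans ?_ (q_lo hv)
    have h2 : (1:ℝ) / 2 ≤ Real.exp (-v ^ 2 / 2) := by
      have h3 := Real.add_one_le_exp (-v ^ 2 / 2)
      nlinarith
    have h4 : (1:ℝ) / 2 ≤ c2 := by
      unfold c2
      have h5 : √(2 * Real.pi) ≤ 4 := by
        rw [Real.sqrt_le_left (by norm_num)]
        have := Real.pi_le_four
        linarith
      have h6 : (4:ℝ)⁻¹ ≤ (√(2 * Real.pi))⁻¹ := inv_anti₀ s2_pos h5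
      linarith
    have h5 : c2 * v * (1 / 2) ≤ c2 * v * Real.exp (-v ^ 2 / 2) :=
      mul_le_mul_of_nonneg_left h2 (mul_nonneg c2_pos.le hv)
    have h6 : 1 / 2 * v ≤ c2 * v := mul_le_mul_of_nonneg_right h4 hv
    linarith
  rcases le_total u 1 with h | h
  · rw [min_eq_left h]
    exact h1 u hu h
  · rw [min_eq_right h]
    exact (h1 1 zero_le_one le_rfl).trans (q_mono h)

lemma q_lim {a : ℝ} (ha : 0 ≤ a) : Tendsto (fun N : ℕ => (N:ℝ) * q (a / N)) atTop (𝓝 (c2 * a)) := by
  have h0 : Tendsto (fun N : ℕ => a / (N:ℝ)) atTop (𝓝 0) := tendsto_const_div_atTop_nhds_zero_nat a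
  have h1 : Tendsto (fun N : ℕ => c2 * a * Real.exp (-(a / (N:ℝ)) ^ 2 / 2)) atTop (𝓝 (c2 * a)) := by
    have h2 : Tendsto (fun N : ℕ => -(a / (N:ℝ)) ^ 2 / 2) atTop (𝓝 (-(0:ℝ) ^ 2 / 2)) :=
      ((h0.pow 2).neg).div_const 2
    have h3 := (Real.continuous_exp.tendsto _).comp h2
    have h4 := h3.const_mul (c2 * a)
    simpa using h4
  refine tendsto_of_tendsto_of_tendsto_of_le_of_le' h1 tendsto_const_nhds ?_ ?_
  · filter_upwards [eventually_gt_atTop 0] with N hN
    have hN' : (0:ℝ) < N := by exact_mod_cast hN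
    have h2 := mul_le_mul_of_nonneg_left (q_lo (div_nonneg ha hN'.le)) hN'.le
    refine le_trans (le_of_eq ?_) h2
    field_simp
  · filter_upwards [eventually_gt_atTop 0] with N hN
    have hN' : (0:ℝ) < N := by exact_mod_cast hN
    have h2 := mul_le_mul_of_nonneg_left (q_le (div_nonneg ha hN'.le)) hN'.le
    refine h2.trans (le_of_eq ?_)
    field_simp

section

variable {Ω : Type} [MeasurableSpace Ω] {ν : Measure Ω} [IsProbabilityMeasure ν] {R : Ω → ℝ}

/-- `ψ` -/
noncomputable def psi (ν : Measure Ω) (R : Ω → ℝ) (t : ℝ) : ℝ := ∫ ω, q (|t| * R ω) ∂ν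

lemma psi_nn (t : ℝ) : 0 ≤ psi ν R t := integral_nonneg fun _ => q_nn _

lemma qR_int (hR : Measurable R) (t : ℝ) : Integrable (fun ω => q (t * R ω)) ν := by
  refine Integrable.mono' (integrable_const (1:ℝ)) (q_mono.measurable.comp (hR.const_mul t)).aestronglyMeasurable ?_
  refine Eventually.of_forall fun ω => ?_
  rw [Real.norm_of_nonneg (q_nn _)]
  exact q_le1 _

lemma psi_le1 (hR : Measurable R) (t : ℝ) : psi ν R t ≤ 1 := by
  unfold psi
  refine (integral_mono (qR_int hR _) (integrable_const 1) fun ω => q_le1 _).trans ?_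
  simp

lemma psi_meas (hR : Measurable R) : Measurable (psi ν R) := by
  have h1 : StronglyMeasurable (Function.uncurry fun (t : ℝ) (ω : Ω) => q (|t| * R ω)) := by
    refine Measurable.stronglyMeasurable ?_
    exact q_mono.measurable.comp ((measurable_fst.abs).mul (hR.comp measurable_snd))
  exact (h1.integral_prod_right (ν := ν)).measurable

lemma psi_ge (hR : Measurable R) {p r : ℝ} (hr : 0 < r) (hp : p ≤ ν.real {ω | r ≤ R ω}) (t : ℝ) :
    p / 4 * min (|t| * r) 1 ≤ psi ν R t := by
  have hm : MeasurableSet {ω | r ≤ R ω} := measurableSet_le measurable_const hR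
  have h1 : ∫ ω, ({ω | r ≤ R ω}.indicator (fun _ => min (|t| * r) 1 / 4)) ω ∂ν ≤ psi ν R t := by
    unfold psi
    refine integral_mono ((integrable_const _).indicator hm) (qR_int hR _) fun ω => ?_
    show {ω | r ≤ R ω}.indicator (fun _ => min (|t| * r) 1 / 4) ω ≤ q (|t| * R ω)
    by_cases h : ω ∈ {ω | r ≤ R ω}
    · rw [Set.indicator_of_mem h]
      refine (q_ge (mul_nonneg (abs_nonneg t) hr.le)).trans (q_mono ?_)
      exact mul_le_mul_of_nonneg_left h (abs_nonneg t)
    · rw [Set.indicator_of_notMem h]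
      exact q_nn _
  rw [integral_indicator hm, setIntegral_const, smul_eq_mul] at h1
  refine le_trans ?_ h1
  have h2 : 0 ≤ min (|t| * r) 1 := le_min (mul_nonneg (abs_nonneg t) hr.le) zero_le_one
  have h3 := mul_le_mul_of_nonneg_right hp (show 0 ≤ min (|t| * r) 1 / 4 by positivity)
  linarith

/-- the rescaled integrand -/
noncomputable def FN (ν : Measure Ω) (R : Ω → ℝ) (N : ℕ) (s : ℝ) : ℝ := (1 - psi ν R (s / N)) ^ N * g (s / N)

lemma FN_eq (N : ℕ) (hN : N ≠ 0) :
    N * ∫ t, (1 - ∫ ω, q (|t| * R ω) ∂ν) ^ N ∂(gaussianReal 0 1) = ∫ s, FN ν R N s := by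
  have hN' : (0:ℝ) < N := by exact_mod_cast Nat.pos_of_ne_zero hN
  have h1 : ∫ s, FN ν R N s = |(N:ℝ)| • ∫ t, (1 - psi ν R t) ^ N * g t :=
    Measure.integral_comp_div (fun t => (1 - psi ν R t) ^ N * g t) (N:ℝ)
  rw [h1, abs_of_pos hN', smul_eq_mul, integral_gaussianReal_eq_integral_smul one_ne_zero]
  congr 1
  refine integral_congr_ae (Eventually.of_forall fun t => ?_)
  show gaussianPDFReal 0 1 t • (1 - ∫ ω, q (|t| * R ω) ∂ν) ^ N = (1 - psi ν R t) ^ N * g t
  rw [smul_eq_mul, mul_comm]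
  rfl

lemma FN_nn (hR : Measurable R) (N : ℕ) (s : ℝ) : 0 ≤ FN ν R N s :=
  mul_nonneg (pow_nonneg (by linarith [psi_le1 (ν := ν) hR (s / N)]) _) (g_pos _).le

/-- the bound of the integrand -/
lemma FN_le (hR : Measurable R) {p r : ℝ} (hp0 : 0 < p) (hr : 0 < r) (hp : p ≤ ν.real {ω | r ≤ R ω}) (N : ℕ)
    (hN : N ≠ 0) (s : ℝ) :
    FN ν R N s ≤ Real.exp (-(p * r / 4) * |s|) + 64 / p ^ 2 * (1 + s ^ 2)⁻¹ := by
  have hN' : (0:ℝ) < N := by exact_mod_cast Nat.pos_of_ne_zero hN
  have hN1 : (1:ℝ) ≤ N := by exact_mod_cast Nat.one_le_iff_ne_zero.2 hN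
  have h1 := psi_ge (ν := ν) hR hr hp (s / N)
  have h0 := psi_le1 (ν := ν) hR (s / N)
  have hn := psi_nn (ν := ν) (R := R) (s / N)
  have hg1 : g (s / N) ≤ 1 := by
    refine (g_le _).trans ?_
    rw [inv_le_one₀ s2_pos]
    rw [Real.one_le_sqrt]
    have := Real.pi_gt_three
    linarith
  have h2 : (1 - psi ν R (s / N)) ^ N ≤ Real.exp (-(N * psi ν R (s / N))) := by
    have h3 : 1 - psi ν R (s / N) ≤ Real.exp (-(psi ν R (s / N))) := by
      have := Real.add_one_le_exp (-(psi ν R (s / N)))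
      linarith
    calc (1 - psi ν R (s / N)) ^ N ≤ (Real.exp (-(psi ν R (s / N)))) ^ N := pow_le_pow_left₀ (by linarith) h3 N
      _ = Real.exp (-(N * psi ν R (s / N))) := by
          rw [← Real.exp_nat_mul]
          congr 1
          ring
  have hexp0 : 0 < Real.exp (-(p * r / 4) * |s|) := Real.exp_pos _
  have hinv : 0 < (1 + s ^ 2)⁻¹ := by positivity
  rcases le_total (|s / N| * r) 1 with h | h
  · -- small argument
    rw [min_eq_left h] at h1
    have h3 : p * r / 4 * |s| ≤ N * psi ν R (s / N) := by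
      have h4 := mul_le_mul_of_nonneg_left h1 hN'.le
      refine le_trans (le_of_eq ?_) h4
      rw [abs_div, abs_of_pos hN']
      field_simp
    have h5 : (1 - psi ν R (s / N)) ^ N ≤ Real.exp (-(p * r / 4) * |s|) :=
      h2.trans (Real.exp_le_exp.2 (by linarith))
    have h6 : FN ν R N s ≤ Real.exp (-(p * r / 4) * |s|) * 1 :=
      mul_le_mul h5 hg1 (g_pos _).le hexp0.le
    have h7 : 0 < 64 / p ^ 2 * (1 + s ^ 2)⁻¹ := by positivity
    linarith
  · -- large argument
    rw [min_eq_right h] at h1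
    have h3 : (1 - psi ν R (s / N)) ^ N ≤ Real.exp (-(p * N / 4)) := by
      refine h2.trans (Real.exp_le_exp.2 ?_)
      have h4 := mul_le_mul_of_nonneg_left h1 hN'.le
      linarith
    have h4 : Real.exp (-(p * N / 4)) * (N:ℝ) ^ 2 ≤ 32 / p ^ 2 := by
      have h5 := Real.quadratic_le_exp_of_nonneg (show 0 ≤ p * N / 4 by positivity)
      have h6 : (p * N / 4) ^ 2 / 2 ≤ Real.exp (p * N / 4) := by
        have : 0 ≤ p * N / 4 := by positivity
        linarith
      rw [Real.exp_neg, inv_mul_le_iff₀ (Real.exp_pos _)]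
      have h7 : (N:ℝ) ^ 2 = (p * N / 4) ^ 2 / 2 * (32 / p ^ 2) := by
        field_simp
        ring
      rw [h7]
      exact mul_le_mul_of_nonneg_right h6 (by positivity)
    have h5 : g (s / N) ≤ 2 * (N:ℝ) ^ 2 * (1 + s ^ 2)⁻¹ := by
      have h6 : g (s / N) ≤ Real.exp (-(s / N) ^ 2 / 2) := by
        rw [g_eq]
        refine mul_le_of_le_one_left (Real.exp_pos _).le ?_
        rw [inv_le_one₀ s2_pos, Real.one_le_sqrt]
        have := Real.pi_gt_three
        linarith
      refine h6.trans ?_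
      have h7 : 1 + (s / N) ^ 2 / 2 ≤ Real.exp ((s / N) ^ 2 / 2) := by
        have := Real.add_one_le_exp ((s / N) ^ 2 / 2)
        linarith
      have h8 : Real.exp (-(s / N) ^ 2 / 2) = (Real.exp ((s / N) ^ 2 / 2))⁻¹ := by
        rw [← Real.exp_neg]
        congr 1
        ring
      rw [h8, ← div_eq_mul_inv, inv_le_comm₀ (Real.exp_pos _) (by positivity), inv_div]
      refine le_trans ?_ h7
      rw [div_le_iff₀ (by positivity)]
      have h9 : (1 + (s / N) ^ 2 / 2) * (2 * (N:ℝ) ^ 2) = 2 * (N:ℝ) ^ 2 + s ^ 2 := by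
        field_simp
      rw [h9]
      nlinarith
    have h6 : FN ν R N s ≤ Real.exp (-(p * N / 4)) * (2 * (N:ℝ) ^ 2 * (1 + s ^ 2)⁻¹) :=
      mul_le_mul h3 h5 (g_pos _).le (Real.exp_pos _).le
    have h7 : Real.exp (-(p * N / 4)) * (2 * (N:ℝ) ^ 2 * (1 + s ^ 2)⁻¹) =
        (Real.exp (-(p * N / 4)) * (N:ℝ) ^ 2) * (2 * (1 + s ^ 2)⁻¹) := by ring
    have h8 : (Real.exp (-(p * N / 4)) * (N:ℝ) ^ 2) * (2 * (1 + s ^ 2)⁻¹) ≤ 32 / p ^ 2 * (2 * (1 + s ^ 2)⁻¹) :=
      mul_le_mul_of_nonneg_right h4 (by positivity)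
    have h9 : 32 / p ^ 2 * (2 * (1 + s ^ 2)⁻¹) = 64 / p ^ 2 * (1 + s ^ 2)⁻¹ := by ring
    linarith

end

lemma exp_abs {a : ℝ} (ha : 0 < a) : Integrable (fun s : ℝ => Real.exp (-a * |s|)) ∧
    ∫ s : ℝ, Real.exp (-a * |s|) = 2 / a := by
  have h1 : ∫ s : ℝ, Real.exp (-a * |s|) = 2 / a := by
    rw [integral_comp_abs (f := fun x => Real.exp (-a * x)), integral_exp_mul_Ioi (by linarith)]
    rw [mul_zero, Real.exp_zero]
    field_simp
  refine ⟨?_, h1⟩
  by_contra h
  rw [integral_undef h] at h1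
  have : 0 < 2 / a := by positivity
  linarith

theorem t_ONE : S_ONE := by
  intro p hp0
  refine ⟨8 / p + 64 / p ^ 2 * Real.pi, by positivity, ?_⟩
  intro Ω _ ν hν R hR hR0 hRi r hr hp
  set B : ℝ → ℝ := fun s => Real.exp (-(p * r / 4) * |s|) + 64 / p ^ 2 * (1 + s ^ 2)⁻¹ with hB
  obtain ⟨hi1, hi2⟩ := exp_abs (show 0 < p * r / 4 by positivity)
  have hBi : Integrable B := hi1.add (integrable_inv_one_add_sq.const_mul _)
  have hBv : ∫ s, B s = 8 / (p * r) + 64 / p ^ 2 * Real.pi := by
    rw [hB, integral_add hi1 (integrable_inv_one_add_sq.const_mul _), hi2, integral_const_mul,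
      integral_univ_inv_one_add_sq]
    congr 1
    field_simp
    norm_num
  have hFm : ∀ N : ℕ, Measurable (FN ν R N) := by
    intro N
    unfold FN
    have h1 : Measurable fun s : ℝ => s / (N:ℝ) := measurable_id.div_const _
    have h2 : Measurable g := measurable_gaussianPDFReal 0 1
    exact ((measurable_const.sub ((psi_meas hR).comp h1)).pow_const N).mul (h2.comp h1)
  have hFi : ∀ N : ℕ, N ≠ 0 → Integrable (FN ν R N) := by
    intro N hN
    refine hBi.mono' (hFm N).aestronglyMeasurable (Eventually.of_forall fun s => ?_)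
    rw [Real.norm_of_nonneg (FN_nn hR N s)]
    exact FN_le hR hp0 hr hp N hN s
  refine ⟨fun N => ?_, ?_⟩
  · by_cases hN : N = 0
    · rw [hN]
      simp only [CharP.cast_eq_zero, zero_mul]
      positivity
    · rw [FN_eq N hN]
      refine (integral_mono (hFi N hN) hBi fun s => FN_le hR hp0 hr hp N hN s).trans ?_
      rw [hBv]
      have h1 : 8 / (p * r) = 8 / p * (1 / r) := by field_simp
      rw [h1]
      have h2 : 0 ≤ 64 / p ^ 2 * Real.pi * (1 / r) := by positivity
      have h3 : 0 < 8 / p := by positivity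
      nlinarith
  · -- the limit
    set m : ℝ := ∫ ω, R ω ∂ν with hm
    have hm0 : 0 < m := by
      have h1 : p * r ≤ m := by
        have hms : MeasurableSet {ω | r ≤ R ω} := measurableSet_le measurable_const hR
        have h2 : ∫ ω, ({ω | r ≤ R ω}.indicator (fun _ => r)) ω ∂ν ≤ m := by
          refine integral_mono ((integrable_const _).indicator hms) hRi fun ω => ?_
          by_cases h : ω ∈ {ω | r ≤ R ω}
          · rw [Set.indicator_of_mem h]
            exact h
          · rw [Set.indicator_of_notMem h]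
            exact hR0 ω
        rw [integral_indicator hms, setIntegral_const, smul_eq_mul] at h2
        exact (mul_le_mul_of_nonneg_right hp hr.le).trans h2
      have : 0 < p * r := by positivity
      linarith
    have hlim : Tendsto (fun N : ℕ => ∫ s, FN ν R N s) atTop
        (𝓝 (∫ s : ℝ, Real.exp (-(c2 * m) * |s|) * (√(2 * Real.pi))⁻¹)) := by
      refine tendsto_integral_filter_of_dominated_convergence B ?_ ?_ hBi ?_
      · exact Eventually.of_forall fun N => (hFm N).aestronglyMeasurable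
      · filter_upwards [eventually_ne_atTop 0] with N hN
        refine Eventually.of_forall fun s => ?_
        rw [Real.norm_of_nonneg (FN_nn hR N s)]
        exact FN_le hR hp0 hr hp N hN s
      · refine Eventually.of_forall fun s => ?_
        have h1 : Tendsto (fun N : ℕ => (N:ℝ) * psi ν R (s / N)) atTop (𝓝 (c2 * m * |s|)) := by
          have h2 : Tendsto (fun N : ℕ => ∫ ω, (N:ℝ) * q (|s / N| * R ω) ∂ν) atTop (𝓝 (∫ ω, c2 * (|s| * R ω) ∂ν)) := by
            refine tendsto_integral_filter_of_dominated_convergence (fun ω => c2 * (|s| * R ω)) ?_ ?_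
              ((hRi.const_mul _).const_mul _) ?_
            · exact Eventually.of_forall fun N => ((qR_int hR _).const_mul _).aestronglyMeasurable
            · filter_upwards [eventually_gt_atTop 0] with N hN
              have hN' : (0:ℝ) < N := by exact_mod_cast hN
              refine Eventually.of_forall fun ω => ?_
              have h4 := hR0 ω
              rw [Real.norm_of_nonneg (mul_nonneg hN'.le (q_nn _))]
              have h3 := mul_le_mul_of_nonneg_left (q_le (mul_nonneg (abs_nonneg (s / N)) h4)) hN'.le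
              refine h3.trans (le_of_eq ?_)
              rw [abs_div, abs_of_pos hN']
              field_simp
            · refine Eventually.of_forall fun ω => ?_
              refine Tendsto.congr' ?_ (q_lim (mul_nonneg (abs_nonneg s) (hR0 ω)))
              filter_upwards [eventually_gt_atTop 0] with N hN
              have hN' : (0:ℝ) < N := by exact_mod_cast hN
              rw [abs_div, abs_of_pos hN']
              congr 2
              ring
          have h5 : ∫ ω, c2 * (|s| * R ω) ∂ν = c2 * m * |s| := by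
            rw [integral_const_mul, integral_const_mul]
            ring
          rw [h5] at h2
          refine Tendsto.congr (fun N => ?_) h2
          rw [integral_const_mul]
          rfl
        have h2 : Tendsto (fun N : ℕ => (1 - psi ν R (s / N)) ^ N) atTop (𝓝 (Real.exp (-(c2 * m) * |s|))) := by
          have h3 : Tendsto (fun N : ℕ => (N:ℝ) * (-(psi ν R (s / N)))) atTop (𝓝 (-(c2 * m) * |s|)) := by
            have h4 := h1.neg
            refine Tendsto.congr (fun N => ?_) (h4.trans (le_of_eq ?_))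
            · ring
            · congr 1
              ring
          have h4 := Real.tendsto_one_add_pow_exp_of_tendsto h3
          refine Tendsto.congr (fun N => ?_) h4
          rw [← sub_eq_add_neg]
        have h3 : Tendsto (fun N : ℕ => g (s / N)) atTop (𝓝 ((√(2 * Real.pi))⁻¹)) := by
          have h4 : Continuous g := by
            have : g = fun x => (√(2 * Real.pi))⁻¹ * Real.exp (-x ^ 2 / 2) := funext g_eq
            rw [this]
            fun_prop
          have h5 := (h4.tendsto 0).comp (tendsto_const_div_atTop_nhds_zero_nat s)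
          have h6 : g 0 = (√(2 * Real.pi))⁻¹ := by
            rw [g_eq]
            simp
          rwa [h6] at h5
        exact h2.mul h3
    have hval : ∫ s : ℝ, Real.exp (-(c2 * m) * |s|) * (√(2 * Real.pi))⁻¹ = 1 / m := by
      have h1 := c2_pos
      rw [integral_mul_const, (exp_abs (mul_pos h1 hm0)).2]
      unfold c2
      have := s2_pos
      field_simp
    rw [hval] at hlim
    refine Tendsto.congr' ?_ hlim
    filter_upwards [eventually_ne_atTop 0] with N hN
    exact (FN_eq N hN).symm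

end Pool.Agent.Run7.h717.SA.H701
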