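import Pool.Agent.Run7.h717.SA.GEO
import Pool.Agent.Run7.h67.SA.DEN
import Pool.Agent.Run7.h957.SA.FIN
import Pool.Agent.Run7.h989.SA.TR
import Pool.Agent.Run7.h989.SA.INN
import Pool.Agent.Run7.h633.SA.LIM
import Pool.Agent.Run7.h717.SA.ONE
import Pool.Agent.Run7.h975.SA.SYM
import Pool.Agent.Run7.h975.SA.MOM
import Pool.Agent.Run7.h942.SA.DEC
import Pool.Agent.Run7.h942.SA.RLO
import Pool.Agent.Run7.h324.SA.POW
import Pool.Agent.Run7.h324.SA.SPH
import Pool.Agent.Run7.h324.SA.MSR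
import Pool.Agent.Run7.h579.SA.UNI
import Pool.Agent.Run7.h579.SA.LI

/-! # Project SA: assembly of the pieces -/

set_option autoImplicit false

namespace Pool.Agent.Run7.h717.SA

open MeasureTheory ProbabilityTheory Filter Topology

theorem unif_prob (d : ℕ) (hd : 1 ≤ d) : IsProbabilityMeasure (unif d) := by
  rw [← Run7.h579.SA.t_UNI d hd]
  exact Measure.isProbabilityMeasure_map (by fun_prop)

/-- The main theorem (see `MAIN` in `Iface`). -/
theorem main : MAIN := by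
  have hUNI : S_UNI := Run7.h579.SA.t_UNI
  have hLI : S_LI := Run7.h579.SA.LI.t_LI
  have hDEN : S_DEN := Pool.Agent.Run7.h67.SA.t_DEN hLI
  have hMSR : S_MSR := Pool.Agent.Run7.h324.SA.t_MSR
  have hSPH : S_SPH := Pool.Agent.Run7.h324.SA.t_SPH hUNI hLI
  have hPOW : S_POW := Pool.Agent.Run7.h324.SA.t_POW hLI
  have hTR : S_TR := Pool.Agent.Run7.h989.SA.t_TR
  have hSYM : S_SYM := Pool.Agent.Run7.h975.SA.t_SYM hPOW hDEN hTR hLI
  have hDEC : S_DEC := Pool.Agent.Run7.h942.SA.t_DEC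
  have hRLO : S_RLO := Pool.Agent.Run7.h942.SA.t_RLO
  have hONE : S_ONE := H701.t_ONE
  have hINN : S_INN := Pool.Agent.Run7.h989.SA.t_INN hDEC t_GEO hRLO hONE hMSR
  have hLIM : S_LIM := Pool.Agent.Run7.h633.SA.t_LIM hINN hLI hMSR
  have hMOM : S_MOM := Pool.Agent.Run7.h975.SA.t_MOM
  exact Pool.Agent.Run7.h957.SA.t_FIN hSPH hSYM hLIM hMOM

end Pool.Agent.Run7.h717.SA
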