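import Mathlib

/-!
# Project SA (MP_da621d_pr, rare spikes of the solid angle, full answer: YES), helper717

Interface only (definitions and closed statements, no results).  A piece `X` is a file
`Pool/Agent/Run7/<seat>/SA/X.lean` proving `theorem t_X : S_X` (hypotheses `S_Y` only where they stand in the
statement of `S_X`).

COMPLETE PROOF.  `m(d,k) = E α_d^k`.  By the symmetry `m(d,k) = m(k,d)`,
`∫ x^k dμ_d = 2^d d m(k,d) = d E[(2 α_k)^d]`.  For FIXED `k ≥ 2` this converges to a `c_k > 0` as `d → ∞`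
(`S_LIM`), so the measures `x^2 μ_d` on `[0,1]` have convergent moments and `μ_d` converges vaguely
(`S_MOM`); `c_3 > 0` gives a nonzero limit.

`S_LIM` (`k = m + 1`): fix linearly independent `x_1..x_m` in `R^(m+1)`, `H` their span, `n` a unit normal.
`x_k = h + t n` with `h` standard Gaussian on `H`, `t` an independent `N(0,1)` (`S_DEC`).  Write
`h = - sum b_i x_i`.  With `G = g + γ n`, `t > 0`: `G ∈ pos` iff `γ ≥ 0` and `t g_i + γ b_i ≥ 0` for all `i`.
If all `b_i > 0`: `2 α = P(|γ| ≥ |t| R(g))`, `R(g) = max_i max(0, - g_i / b_i)`; if some `b_i < 0`: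
`2 α ≤ 1/2` (`S_GEO`).  As `N → ∞`, `N ∫ (2 α)^N dN(0,1)(t) → 1 / E R` and it is at most `C (1 + |h|)`
(`S_ONE`, `S_RLO`); dominated convergence in `h` and in `x` gives `S_LIM`.
-/

set_option autoImplicit false

namespace Pool.Agent.Run7.h717.SA

open MeasureTheory ProbabilityTheory Filter Topology
open scoped ENNReal

/-- `R^d` -/
abbrev E (d : ℕ) := EuclideanSpace ℝ (Fin d)

/-- positive hull -/
def pos {ι F : Type} [Fintype ι] [AddCommGroup F] [Module ℝ F] (x : ι → F) : Set F :=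
  {y | ∃ c : ι → ℝ, (∀ i, 0 ≤ c i) ∧ y = ∑ i, c i • x i}

/-- the uniform distribution on the unit sphere of `R^d` -/
noncomputable def unif (d : ℕ) : Measure (E d) :=
  ((volume : Measure (E d)).toSphere Set.univ)⁻¹ •
    ((volume : Measure (E d)).toSphere.map Subtype.val)

/-- the solid angle of `pos (x_1, .., x_d)` -/
noncomputable def solid {d : ℕ} (x : Fin d → E d) : ℝ := (unif d).real (pos x)

/-- the measure `μ_d` on `(0,∞)` -/
noncomputable def muD (d : ℕ) : Measure (Set.Ioi (0:ℝ)) :=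
  ((2:ℝ≥0∞) ^ d * d) • (((Measure.pi fun _ : Fin d => unif d).map solid).comap Subtype.val)

/-- MAIN STATEMENT -/
def MAIN : Prop :=
  (∀ d : ℕ, 1 ≤ d → AEMeasurable (solid (d := d)) (Measure.pi fun _ : Fin d => unif d)) ∧
  ∃ μ : Measure (Set.Ioi (0:ℝ)), IsLocallyFiniteMeasure μ ∧ μ ≠ 0 ∧
    ∀ f : CompactlySupportedContinuousMap (Set.Ioi (0:ℝ)) ℝ, Tendsto (fun d => ∫ x, f x ∂(muD d)) atTop (𝓝 (∫ x, f x ∂μ))

/-- the angle with respect to the standard Gaussian measure (Mathlib's `stdGaussian`) -/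
noncomputable def ang {ι F : Type} [Fintype ι] [NormedAddCommGroup F] [InnerProductSpace ℝ F]
    [FiniteDimensional ℝ F] [MeasurableSpace F] (x : ι → F) : ℝ := (stdGaussian F).real (pos x)

/-- the law of `d` independent Gaussian vectors of `R^d` -/
noncomputable def GG (n d : ℕ) : Measure (Fin n → E d) := Measure.pi fun _ : Fin n => stdGaussian (E d)

/-- `m(d,k)` -/
noncomputable def mm (d k : ℕ) : ℝ := ∫ x, ang x ^ k ∂(GG d d)

/-! ### pieces -/

/-- UNI (80 lines): the direction of a Gaussian vector is uniform.  Polar coordinates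
(`Measure.measurePreserving_homeomorphUnitSphereProd`, `stdGaussian` has density `c exp(-|x|^2/2)` or: both sides
are rotation invariant), any proof. -/
def S_UNI : Prop := ∀ d : ℕ, 1 ≤ d → (stdGaussian (E d)).map (fun y => ‖y‖⁻¹ • y) = unif d

/-- LI (40 lines): almost all tuples are linearly independent (a proper subspace is a null set). -/
def S_LI : Prop := ∀ n d : ℕ, n ≤ d → ∀ᵐ x ∂(GG n d), LinearIndependent ℝ x

/-- MSR (50 lines): a measurable version of the angle (coefficients by the inverse matrix, the nonsingular inverse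
is measurable; `measurable_measure_prodMk_left`). -/
def S_MSR : Prop := ∀ d : ℕ, ∃ a : (Fin d → E d) → ℝ, Measurable a ∧
  ∀ x, LinearIndependent ℝ x → ang x = a x

/-- SPH (60 lines): from UNI, LI, MSR (the cone does not change when the vectors are normalised). -/
def S_SPH : Prop := ∀ d : ℕ, 1 ≤ d →
  AEMeasurable (solid (d := d)) (Measure.pi fun _ : Fin d => unif d) ∧
  AEMeasurable (fun x : Fin d → E d => ang x) (GG d d) ∧
  (Measure.pi fun _ : Fin d => unif d).map solid = (GG d d).map (fun x => ang x)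

/-- POW (40 lines): the `k`-th power of the angle is the probability that `k` independent vectors are in the cone. -/
def S_POW : Prop := ∀ d k : ℕ, mm d k =
  ((GG d d).prod (GG k d)).real {p | ∀ j, p.2 j ∈ pos p.1}

/-- DEN (150 lines): density of `M = V U⁻¹`.  For fixed `U` substitute `V = M U` (rows), then for fixed `M`
`|U|^2 + |M U|^2 = tr (U^T (1 + M^T M) U)`, `1 + M^T M = L^T L`, substitute `U' = L U`; `det (1 + M^T M) =
det (1 + M M^T)`.  `C` = the integral over `U'`. -/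
def S_DEN : Prop := ∀ d k : ℕ, 1 ≤ d → 1 ≤ k → ∃ C : ℝ≥0∞, ∀ S : Set (Fin k → Fin d → ℝ), MeasurableSet S →
  ((GG d d).prod (GG k d)) {p | ∃ M ∈ S, ∀ j, p.2 j = ∑ i, M j i • p.1 i} =
    C * ∫⁻ M in S, ENNReal.ofReal
      ((1 + Matrix.of M * (Matrix.of M).transpose).det ^ (-(((d + k : ℕ) : ℝ)) / 2)) ∂volume

/-- TR (30 lines): transposition preserves the volume. -/
def S_TR : Prop := ∀ d k : ℕ,
  (volume : Measure (Fin k → Fin d → ℝ)).map (fun M i j => M j i) = (volume : Measure (Fin d → Fin k → ℝ))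

/-- SYM (60 lines), from POW, DEN, TR, LI: both constants are one over the same total integral
(`S = univ`, Sylvester's identity `Matrix.det_one_add_mul_comm`). -/
def S_SYM : Prop := ∀ d k : ℕ, 1 ≤ d → 1 ≤ k → mm d k = mm k d

/-- DEC (60 lines): orthogonal decomposition of the standard Gaussian (characteristic functions). -/
def S_DEC : Prop := ∀ (m : ℕ) (H : Submodule ℝ (E (m + 1))), Module.finrank ℝ H = m →
  ∃ n : E (m + 1), ‖n‖ = 1 ∧ (∀ h ∈ H, inner ℝ h n = 0) ∧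
    ((stdGaussian H).prod (gaussianReal 0 1)).map (fun p => (p.1 : E (m + 1)) + p.2 • n) =
      stdGaussian (E (m + 1))

/-- `P(|γ| ≤ u)` -/
noncomputable def q (u : ℝ) : ℝ := (gaussianReal 0 1).real (Set.Icc (-u) u)

/-- `R(g) = max_i max(0, - g_i / b_i)`, `g = sum g_i z_i` -/
noncomputable def RR {m : ℕ} {H : Type} [AddCommGroup H] [Module ℝ H] (z : Module.Basis (Fin m) ℝ H)
    (b : Fin m → ℝ) (g : H) : ℝ := ⨆ i, max 0 (-(z.repr g i) / b i)

/-- GEO (120 lines): the angle of `pos (z_1, .., z_m, h + t n)`, `h = - sum b_i z_i`. -/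
def S_GEO : Prop := ∀ (m : ℕ), 1 ≤ m → ∀ (H : Submodule ℝ (E (m + 1))) (z : Module.Basis (Fin m) ℝ H)
  (n : E (m + 1)), ‖n‖ = 1 → (∀ h ∈ H, inner ℝ h n = 0) →
  ((stdGaussian H).prod (gaussianReal 0 1)).map (fun p => (p.1 : E (m + 1)) + p.2 • n) =
      stdGaussian (E (m + 1)) →
  ∀ (b : Fin m → ℝ) (t : ℝ), t ≠ 0 →
  ((∀ i, 0 < b i) → 2 * ang (Fin.snoc (fun i => (z i : E (m + 1)))
      (-(∑ i, b i • (z i : E (m + 1))) + t • n) : Fin (m + 1) → E (m + 1)) =
      1 - ∫ g, q (|t| * RR z b g) ∂(stdGaussian H)) ∧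
  ((∃ i, b i < 0) → 2 * ang (Fin.snoc (fun i => (z i : E (m + 1)))
      (-(∑ i, b i • (z i : E (m + 1))) + t • n) : Fin (m + 1) → E (m + 1)) ≤ 1 / 2)

/-- RLO (80 lines): `R` is measurable, integrable, nonnegative, and `R ≥ 1/|h|` with probability `≥ P(N(0,1) ≥ 1)`
(`g_1 = <w, g>` is `N(0, |w|^2)` and `b_1 = <w, sum b_i z_i> ≤ |w| |h|`). -/
def S_RLO : Prop := ∀ (m : ℕ), 1 ≤ m → ∀ (d : ℕ) (H : Submodule ℝ (E d)) (z : Module.Basis (Fin m) ℝ H)
  (b : Fin m → ℝ), (∀ i, 0 < b i) →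
  Measurable (RR z b) ∧ (∀ g, 0 ≤ RR z b g) ∧ Integrable (RR z b) (stdGaussian H) ∧
    (gaussianReal 0 1).real (Set.Ici 1) ≤ (stdGaussian H).real {g | 1 / ‖∑ i, b i • z i‖ ≤ RR z b g}

/-- ONE (150 lines): `N ∫ (1 - ψ(|t|))^N dN(0,1)(t) → 1 / E R` for `ψ(t) = E q(t R)`, with a uniform bound.
Substitute `t = s / N`; `q` is concave on `[0,∞)`, `q(u) ~ 2 u / sqrt(2 π)`, `q(u) ≥ min(u,1)/4`, hence
`ψ(t) ≥ (p/4) min(t r, 1)` and `(1 - ψ(s/N))^N exp(-s^2/(2 N^2)) ≤ exp(-p |s| r/4) + C_p/(1 + s^2)`. -/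
def S_ONE : Prop := ∀ p : ℝ, 0 < p → ∃ C : ℝ, 0 < C ∧ ∀ (Ω : Type) [MeasurableSpace Ω] (ν : Measure Ω),
  IsProbabilityMeasure ν → ∀ R : Ω → ℝ, Measurable R → (∀ ω, 0 ≤ R ω) → Integrable R ν →
  ∀ r : ℝ, 0 < r → p ≤ ν.real {ω | r ≤ R ω} →
  (∀ N : ℕ, N * ∫ t, (1 - ∫ ω, q (|t| * R ω) ∂ν) ^ N ∂(gaussianReal 0 1) ≤ C * (1 + 1 / r)) ∧
  Tendsto (fun N : ℕ => N * ∫ t, (1 - ∫ ω, q (|t| * R ω) ∂ν) ^ N ∂(gaussianReal 0 1)) atTop
    (𝓝 (1 / ∫ ω, R ω ∂ν))

/-- the inner integral -/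
noncomputable def KK {m : ℕ} (N : ℕ) (x : Fin m → E (m + 1)) : ℝ :=
  N * ∫ v, (2 * ang (Fin.snoc x v : Fin (m + 1) → E (m + 1))) ^ N ∂(stdGaussian (E (m + 1)))

/-- INN (100 lines), from DEC, GEO, RLO, ONE: dominated convergence in `h`. The limit is
`∫_(h : all b_i > 0) 1 / E R`. -/
def S_INN : Prop := ∀ m : ℕ, 1 ≤ m → ∃ C : ℝ, ∀ x : Fin m → E (m + 1), LinearIndependent ℝ x →
  (∀ N, KK N x ≤ C) ∧ ∃ l : ℝ, 0 < l ∧ Tendsto (fun N => KK N x) atTop (𝓝 l)

/-- OUT (60 lines), from INN, LI, MSR: dominated convergence in `x` (`GG (m+1) (m+1)` is the image of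
`GG m (m+1) × stdGaussian` under `Fin.snoc`). -/
def S_LIM : Prop := ∀ m : ℕ, 1 ≤ m → ∃ c : ℝ, 0 < c ∧
  Tendsto (fun N : ℕ => (N : ℝ) * 2 ^ N * mm (m + 1) N) atTop (𝓝 c)

/-- MOM (120 lines): convergence of the moments of order `≥ 2` gives vague convergence on `(0,∞)` (Weierstrass
for `f(x)/x^2` on `[0,1]`, Riesz-Markov `RealRMK`, nonzero because the third moment has a positive limit). -/
def S_MOM : Prop := ∀ ρ : ℕ → Measure ℝ, (∀ d, IsFiniteMeasure (ρ d)) → (∀ d, ρ d (Set.Icc 0 1)ᶜ = 0) →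
  (∀ k : ℕ, 2 ≤ k → ∃ c : ℝ, 0 < c ∧ Tendsto (fun d => ∫ x, x ^ k ∂(ρ d)) atTop (𝓝 c)) →
  ∃ μ : Measure (Set.Ioi (0:ℝ)), IsLocallyFiniteMeasure μ ∧ μ ≠ 0 ∧
    ∀ f : CompactlySupportedContinuousMap (Set.Ioi (0:ℝ)) ℝ,
      Tendsto (fun d => ∫ x, f x ∂((ρ d).comap Subtype.val)) atTop (𝓝 (∫ x, f x ∂μ))

/-- FIN (60 lines): the main theorem from SPH, SYM, LIM, MOM. -/
def S_FIN : Prop := S_SPH → S_SYM → S_LIM → S_MOM → MAIN

end Pool.Agent.Run7.h717.SA
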