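import Mathlib
import Pool.Agent.Run7.h717.SA.Iface

set_option autoImplicit false

namespace Pool.Agent.Run7.h717.SA

open MeasureTheory ProbabilityTheory Filter Topology
open scoped ENNReal

namespace GEO

lemma ioi_add (a : ℝ) (ha : 0 ≤ a) :
    (gaussianReal 0 1).real (Set.Ioi a) = (1 - q a) / 2 := by
  have hsym : (gaussianReal 0 1).real (Set.Iio (-a)) = (gaussianReal 0 1).real (Set.Ioi a) := by
    have h := gaussianReal_map_neg (μ := 0) (v := 1)
    rw [neg_zero] at h
    rw [measureReal_def, measureReal_def]
    conv_rhs => rw [← h]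
    rw [Measure.map_apply (by fun_prop) measurableSet_Ioi]
    congr 2
    ext x
    simp only [Set.mem_Iio, Set.mem_preimage, Set.mem_Ioi]
    constructor <;> intro h <;> linarith
  have h1 : (gaussianReal 0 1).real (Set.Iio (-a) ∪ Set.Icc (-a) a ∪ Set.Ioi a) = 1 := by
    have : Set.Iio (-a) ∪ Set.Icc (-a) a ∪ Set.Ioi a = Set.univ := by
      ext x
      simp only [Set.mem_union, Set.mem_Iio, Set.mem_Icc, Set.mem_Ioi, Set.mem_univ, iff_true]
      by_cases h1 : x < -a
      · exact Or.inl (Or.inl h1)
      · by_cases h2 : a < x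
        · exact Or.inr h2
        · exact Or.inl (Or.inr ⟨not_lt.1 h1, not_lt.1 h2⟩)
    rw [this]; simp
  rw [measureReal_union (by
      rw [Set.disjoint_left]
      rintro x (hx | hx) hx'
      · simp only [Set.mem_Iio, Set.mem_Ioi] at hx hx'; linarith
      · simp only [Set.mem_Icc, Set.mem_Ioi] at hx hx'; linarith [hx.2]) measurableSet_Ioi,
    measureReal_union (by
      rw [Set.disjoint_left]
      intro x hx hx'
      simp only [Set.mem_Iio, Set.mem_Icc] at hx hx'; linarith [hx'.1]) measurableSet_Icc, hsym] at h1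
  have : q a = (gaussianReal 0 1).real (Set.Icc (-a) a) := rfl
  rw [this]; linarith

lemma ici (a : ℝ) (ha : 0 ≤ a) :
    (gaussianReal 0 1).real (Set.Ici a) = (1 - q a) / 2 := by
  have : NullSingletonClass (gaussianReal 0 1) := nullSingletonClass_gaussianReal (by norm_num)
  rw [← ioi_add a ha, measureReal_def, measureReal_def, measure_congr Ioi_ae_eq_Ici]

lemma iic (a : ℝ) (ha : 0 ≤ a) :
    (gaussianReal 0 1).real (Set.Iic (-a)) = (1 - q a) / 2 := by
  rw [← ici a ha]
  have h := gaussianReal_map_neg (μ := 0) (v := 1)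
  rw [neg_zero] at h
  rw [measureReal_def, measureReal_def]
  conv_rhs => rw [← h]
  rw [Measure.map_apply (by fun_prop) measurableSet_Ici]
  congr 2
  ext x
  simp only [Set.mem_Iic, Set.mem_preimage, Set.mem_Ici]
  constructor <;> intro h <;> linarith

lemma slice (u t : ℝ) (hu : 0 ≤ u) (ht : t ≠ 0) :
    (gaussianReal 0 1).real {c | u ≤ c / t} = (1 - q (|t| * u)) / 2 := by
  rcases lt_or_gt_of_ne ht with h | h
  · rw [← iic (|t| * u) (by positivity), abs_of_neg h]
    congr 1
    ext c
    simp only [Set.mem_ofPred_eq, Set.mem_Iic]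
    rw [le_div_iff_of_neg h]
    constructor <;> intro h <;> linarith
  · rw [← ici (|t| * u) (by positivity), abs_of_pos h]
    congr 1
    ext c
    simp only [Set.mem_ofPred_eq, Set.mem_Ici]
    rw [le_div_iff₀ h]
    constructor <;> intro h <;> linarith

section
variable {m : ℕ} {H : Submodule ℝ (E (m + 1))} (z : Module.Basis (Fin m) ℝ H)
  {n : E (m + 1)} (hn : ‖n‖ = 1) (hH : ∀ h ∈ H, inner ℝ h n = 0)

include hn hH in
lemma inn (g : H) (c : ℝ) : inner ℝ ((g : E (m + 1)) + c • n) n = c := by
  rw [inner_add_left, hH _ g.2, inner_smul_left, real_inner_self_eq_norm_sq, hn]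
  simp

lemma sumz (b : Fin m → ℝ) : ∑ i, b i • (z i : E (m + 1)) = ((∑ i, b i • z i : H) : E (m + 1)) := by
  simp

include hn hH in
lemma mem_iff (b : Fin m → ℝ) (t : ℝ) (ht : t ≠ 0) (g : H) (c : ℝ) :
    ((g : E (m + 1)) + c • n) ∈ pos (Fin.snoc (fun i => (z i : E (m + 1)))
      (-(∑ i, b i • (z i : E (m + 1))) + t • n) : Fin (m + 1) → E (m + 1)) ↔
    0 ≤ c / t ∧ ∀ i, 0 ≤ z.repr g i + b i * (c / t) := by
  have key : ∀ d : Fin (m + 1) → ℝ, (∑ i, d i • (Fin.snoc (fun i => (z i : E (m + 1)))
      (-(∑ i, b i • (z i : E (m + 1))) + t • n) : Fin (m + 1) → E (m + 1)) i) =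
      ((∑ i, (d (Fin.castSucc i) - d (Fin.last m) * b i) • z i : H) : E (m + 1)) +
        (d (Fin.last m) * t) • n := by
    intro d
    rw [Fin.sum_univ_castSucc]
    simp only [Fin.snoc_castSucc, Fin.snoc_last]
    rw [smul_add, smul_neg, Finset.smul_sum, smul_smul]
    simp only [sub_smul, Submodule.coe_sum, Submodule.coe_sub, Submodule.coe_smul,
      Finset.sum_sub_distrib, mul_smul]
    module
  constructor
  · rintro ⟨d, hd, hy⟩
    rw [key] at hy
    have h1 : c = d (Fin.last m) * t := by
      have := congrArg (fun y => inner ℝ y n) hy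
      simp only [inn hn hH] at this
      exact this
    have h2 : c / t = d (Fin.last m) := by rw [h1]; field_simp
    have h3 : g = ∑ i, (d (Fin.castSucc i) - d (Fin.last m) * b i) • z i := by
      rw [h1] at hy
      exact Subtype.ext (add_right_cancel hy)
    have h4 : ∀ i, z.repr g i = d (Fin.castSucc i) - d (Fin.last m) * b i := by
      intro i
      rw [h3]
      simp [Finsupp.single_apply]
    refine ⟨by rw [h2]; exact hd _, fun i => ?_⟩
    rw [h4, h2]
    have := hd (Fin.castSucc i)
    linarith
  · rintro ⟨h1, h2⟩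
    refine ⟨Fin.snoc (fun i => z.repr g i + b i * (c / t)) (c / t), ?_, ?_⟩
    · intro i
      refine Fin.lastCases ?_ (fun j => ?_) i
      · simpa using h1
      · simpa using h2 j
    · rw [key]
      simp only [Fin.snoc_castSucc, Fin.snoc_last]
      have h3 : (∑ i, (z.repr g i + b i * (c / t) - c / t * b i) • z i : H) = g := by
        conv_rhs => rw [← z.sum_repr g]
        refine Finset.sum_congr rfl fun i _ => ?_
        congr 1; ring
      rw [h3, div_mul_cancel₀ _ ht]

include hn hH in
lemma emb : MeasurableEmbedding (fun p : H × ℝ => (p.1 : E (m + 1)) + p.2 • n) := by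
  let f : (H × ℝ) →ₗ[ℝ] E (m + 1) :=
    (H.subtype.comp (LinearMap.fst ℝ H ℝ)) + (LinearMap.toSpanSingleton ℝ _ n).comp (LinearMap.snd ℝ H ℝ)
  have hf : LinearMap.ker f = ⊥ := by
    rw [LinearMap.ker_eq_bot']
    rintro ⟨g, c⟩ h
    have h0 : (g : E (m + 1)) + c • n = 0 := by simpa [f] using h
    have h1 : c = 0 := by
      have := inn hn hH g c
      rw [h0, inner_zero_left] at this
      exact this.symm
    subst h1
    have h2 : (g : E (m + 1)) = 0 := by simpa using h0
    exact Prod.ext (Subtype.ext h2) rfl
  have := (LinearMap.isClosedEmbedding_of_injective hf).measurableEmbedding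
  exact this

include hn hH in
lemma ang_eq (hlaw : ((stdGaussian H).prod (gaussianReal 0 1)).map
      (fun p => (p.1 : E (m + 1)) + p.2 • n) = stdGaussian (E (m + 1)))
    (b : Fin m → ℝ) (t : ℝ) (ht : t ≠ 0) :
    ang (Fin.snoc (fun i => (z i : E (m + 1)))
      (-(∑ i, b i • (z i : E (m + 1))) + t • n) : Fin (m + 1) → E (m + 1)) =
    ∫ g, (gaussianReal 0 1).real {c | 0 ≤ c / t ∧ ∀ i, 0 ≤ z.repr g i + b i * (c / t)}
      ∂(stdGaussian H) := by
  have hcoord : ∀ i, Measurable fun g : H => z.repr g i := fun i =>
    (LinearMap.continuous_of_finiteDimensional (z.coord i)).measurable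
  have hA : MeasurableSet {p : H × ℝ | 0 ≤ p.2 / t ∧ ∀ i, 0 ≤ z.repr p.1 i + b i * (p.2 / t)} := by
    refine MeasurableSet.inter (measurableSet_le measurable_const
      ((measurable_snd : Measurable (Prod.snd : H × ℝ → ℝ)).div_const t)) ?_
    show MeasurableSet ({p : H × ℝ | ∀ i, 0 ≤ z.repr p.1 i + b i * (p.2 / t)})
    have hi' : {p : H × ℝ | ∀ i, 0 ≤ z.repr p.1 i + b i * (p.2 / t)} =
        ⋂ i, {p : H × ℝ | 0 ≤ z.repr p.1 i + b i * (p.2 / t)} := by
      ext p; simp [Set.mem_iInter]
    rw [hi']
    refine MeasurableSet.iInter fun i => measurableSet_le measurable_const ?_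
    have hc : Measurable (fun p : H × ℝ => z.repr p.1 i) :=
      (hcoord i).comp (measurable_fst : Measurable (Prod.fst : H × ℝ → H))
    exact hc.add (((measurable_snd : Measurable (Prod.snd : H × ℝ → ℝ)).div_const t).const_mul (b i))
  rw [ang, measureReal_def, ← hlaw, (emb hn hH).map_apply]
  have hset : ((fun p : H × ℝ => (p.1 : E (m + 1)) + p.2 • n) ⁻¹' pos (Fin.snoc (fun i => (z i : E (m + 1)))
      (-(∑ i, b i • (z i : E (m + 1))) + t • n) : Fin (m + 1) → E (m + 1))) =
      {p : H × ℝ | 0 ≤ p.2 / t ∧ ∀ i, 0 ≤ z.repr p.1 i + b i * (p.2 / t)} := by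
    ext p
    exact mem_iff z hn hH b t ht p.1 p.2
  rw [hset, Measure.prod_apply hA, ← integral_toReal (measurable_measure_prodMk_left hA).aemeasurable
    (Eventually.of_forall fun g => measure_lt_top _ _)]
  rfl

end

end GEO

open GEO in
theorem t_GEO : S_GEO := by
  intro m hm H z n hn hH hlaw b t ht
  have hne : Nonempty (Fin m) := ⟨⟨0, hm⟩⟩
  have hcoord : ∀ i, Measurable fun g : H => z.repr g i := fun i =>
    (LinearMap.continuous_of_finiteDimensional (z.coord i)).measurable
  constructor
  · intro hb
    rw [ang_eq z hn hH hlaw b t ht]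
    have h1 : ∀ g : H, (gaussianReal 0 1).real {c | 0 ≤ c / t ∧ ∀ i, 0 ≤ z.repr g i + b i * (c / t)} =
        (1 - q (|t| * RR z b g)) / 2 := by
      intro g
      have hR : 0 ≤ RR z b g := Real.iSup_nonneg fun i => le_max_left _ _
      rw [← slice _ t hR ht]
      congr 1
      ext c
      simp only [Set.mem_ofPred_eq]
      constructor
      · rintro ⟨h1, h2⟩
        refine ciSup_le fun i => max_le h1 ?_
        rw [div_le_iff₀ (hb i)]
        have := h2 i
        linarith
      · intro h
        have h3 : ∀ i, max 0 (-(z.repr g i) / b i) ≤ c / t := fun i =>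
          (le_ciSup (f := fun i => max 0 (-(z.repr g i) / b i)) (Finite.bddAbove_range _) i).trans h
        refine ⟨(le_max_left _ _).trans (h3 (Classical.arbitrary _)), fun i => ?_⟩
        have h4 := (le_max_right _ _).trans (h3 i)
        rw [div_le_iff₀ (hb i)] at h4
        linarith
    simp only [h1]
    rw [integral_div, integral_sub (integrable_const _)]
    · simp
      ring
    · refine Integrable.of_bound (C := 1) ?_ (Eventually.of_forall fun g => ?_)
      · refine Measurable.aestronglyMeasurable ?_
        have hRm : Measurable (RR z b) := by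
          have : RR z b = fun g => ⨆ i, max 0 (-(z.repr g i) / b i) := rfl
          rw [this]
          exact Measurable.iSup fun i => (measurable_const.max ((hcoord i).neg.div_const _))
        have hq : Measurable q := by
          have hmono : MonotoneOn q Set.univ := fun x _ y _ hxy =>
            measureReal_mono (Set.Icc_subset_Icc (by linarith) hxy)
          exact (monotoneOn_univ.1 hmono).measurable
        exact hq.comp (measurable_const.mul hRm)
      · have h0 : 0 ≤ q (|t| * RR z b g) := measureReal_nonneg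
        rw [Real.norm_eq_abs, abs_of_nonneg h0]
        exact measureReal_le_one
  · rintro ⟨i, hi⟩
    rw [ang_eq z hn hH hlaw b t ht]
    have h1 : ∀ g : H, (gaussianReal 0 1).real {c | 0 ≤ c / t ∧ ∀ i, 0 ≤ z.repr g i + b i * (c / t)} ≤
        Set.indicator {g : H | 0 < z.repr g i} (fun _ => (1 / 2 : ℝ)) g := by
      intro g
      by_cases hg : 0 < z.repr g i
      · rw [Set.indicator_of_mem (by exact hg)]
        have h2 := slice 0 t le_rfl ht
        have hq0 : q (|t| * 0) = 0 := by
          have : NullSingletonClass (gaussianReal 0 1) := nullSingletonClass_gaussianReal (by norm_num)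
          simp [q, measureReal_def]
        rw [hq0] at h2
        have h3 : (gaussianReal 0 1).real {c | 0 ≤ c / t ∧ ∀ i, 0 ≤ z.repr g i + b i * (c / t)} ≤
            (gaussianReal 0 1).real {c | 0 ≤ c / t} := measureReal_mono fun c hc => hc.1
        linarith
      · rw [Set.indicator_of_notMem (by exact hg)]
        have h2 : {c | 0 ≤ c / t ∧ ∀ i, 0 ≤ z.repr g i + b i * (c / t)} ⊆ {0} := by
          rintro c ⟨h3, h4⟩
          have h5 := h4 i
          have h6 : c / t ≤ 0 := by
            by_contra h7
            push Not at h7 hg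
            nlinarith
          have h7 : c / t = 0 := le_antisymm h6 h3
          rw [div_eq_zero_iff] at h7
          rcases h7 with h7 | h7
          · exact h7
          · exact absurd h7 ht
        have h3 : NullSingletonClass (gaussianReal 0 1) := nullSingletonClass_gaussianReal (by norm_num)
        have h4 : (gaussianReal 0 1) {c | 0 ≤ c / t ∧ ∀ i, 0 ≤ z.repr g i + b i * (c / t)} = 0 :=
          measure_mono_null h2 (measure_singleton 0)
        rw [measureReal_def, h4]; simp
    have hms : MeasurableSet {g : H | 0 < z.repr g i} := measurableSet_lt measurable_const (hcoord i)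
    have h2 : ∫ g, (gaussianReal 0 1).real {c | 0 ≤ c / t ∧ ∀ i, 0 ≤ z.repr g i + b i * (c / t)}
        ∂(stdGaussian H) ≤ ∫ g, Set.indicator {g : H | 0 < z.repr g i} (fun _ => (1 / 2 : ℝ)) g
        ∂(stdGaussian H) := by
      refine integral_mono_of_nonneg (Eventually.of_forall fun g => measureReal_nonneg) ?_
        (Eventually.of_forall h1)
      exact (integrable_const _).indicator hms
    have h3 : ∫ g, Set.indicator {g : H | 0 < z.repr g i} (fun _ => (1 / 2 : ℝ)) g
        ∂(stdGaussian H) = (stdGaussian H).real {g : H | 0 < z.repr g i} * (1 / 2) := by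
      rw [integral_indicator hms, setIntegral_const, smul_eq_mul]
    have hsym : (stdGaussian H).real {g : H | z.repr g i < 0} =
        (stdGaussian H).real {g : H | 0 < z.repr g i} := by
      have h := stdGaussian_map (LinearIsometryEquiv.neg ℝ (E := H))
      rw [measureReal_def, measureReal_def]
      conv_rhs => rw [← h]
      rw [Measure.map_apply (by fun_prop) hms]
      congr 2
      ext g
      simp
    have h4 : (stdGaussian H).real {g : H | 0 < z.repr g i} ≤ 1 / 2 := by
      have h5 : (stdGaussian H).real ({g : H | z.repr g i < 0} ∪ {g : H | 0 < z.repr g i}) ≤ 1 :=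
        measureReal_le_one
      rw [measureReal_union (by
        rw [Set.disjoint_left]
        intro g hg hg'
        simp only [Set.mem_ofPred_eq] at hg hg'
        linarith) hms, hsym] at h5
      linarith
    linarith

end Pool.Agent.Run7.h717.SA
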