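import Pool.Agent.Run7.h717.SA.GEO
import Pool.Agent.Run7.h67.SA.DEN
import Pool.Agent.Run7.h989.SA.TR
import Pool.Agent.Run7.h989.SA.INN
import Pool.Agent.Run7.h633.SA.LIM
import Pool.Agent.Run7.h717.SA.ONE
import Pool.Agent.Run7.h975.SA.SYM
import Pool.Agent.Run7.h942.SA.DEC
import Pool.Agent.Run7.h942.SA.RLO
import Pool.Agent.Run7.h324.SA.POW
import Pool.Agent.Run7.h324.SA.SPH
import Pool.Agent.Run7.h324.SA.MSR
import Pool.Agent.Run7.h579.SA.UNI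
import Pool.Agent.Run7.h579.SA.LI

/-! # Project SA: the moments of the solid angle -/

set_option autoImplicit false

namespace Pool.Agent.Run7.h717.SA.MomA

open MeasureTheory ProbabilityTheory Filter Topology
open Pool.Agent.Run7.h717.SA

theorem sph : S_SPH := Pool.Agent.Run7.h324.SA.t_SPH Run7.h579.SA.t_UNI Run7.h579.SA.LI.t_LI

theorem sym : S_SYM :=
  Pool.Agent.Run7.h975.SA.t_SYM (Pool.Agent.Run7.h324.SA.t_POW Run7.h579.SA.LI.t_LI)
    (Pool.Agent.Run7.h67.SA.t_DEN Run7.h579.SA.LI.t_LI) Pool.Agent.Run7.h989.SA.t_TR Run7.h579.SA.LI.t_LI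

theorem lim : S_LIM :=
  Pool.Agent.Run7.h633.SA.t_LIM
    (Pool.Agent.Run7.h989.SA.t_INN Pool.Agent.Run7.h942.SA.t_DEC t_GEO Pool.Agent.Run7.h942.SA.t_RLO
      H701.t_ONE Pool.Agent.Run7.h324.SA.t_MSR)
    Run7.h579.SA.LI.t_LI Pool.Agent.Run7.h324.SA.t_MSR

theorem unif_prob (d : ℕ) (hd : 1 ≤ d) : IsProbabilityMeasure (unif d) := by
  rw [← Run7.h579.SA.t_UNI d hd]
  exact Measure.isProbabilityMeasure_map (by fun_prop)

theorem mm_eq (d k : ℕ) (hd : 1 ≤ d) :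
    ∫ x, solid x ^ k ∂(Measure.pi fun _ : Fin d => unif d) = mm d k := by
  have h := sph d hd
  have h1 : ∫ x, solid x ^ k ∂(Measure.pi fun _ : Fin d => unif d) =
      ∫ y, y ^ k ∂((Measure.pi fun _ : Fin d => unif d).map solid) := by
    rw [integral_map h.1 (by fun_prop)]
  rw [h1, h.2.2, integral_map h.2.1 (by fun_prop)]
  rfl

theorem momA (k : ℕ) (hk : 2 ≤ k) : ∃ c : ℝ, 0 < c ∧
    Tendsto (fun d : ℕ => (2:ℝ) ^ d * d * ∫ x, solid x ^ k ∂(Measure.pi fun _ : Fin d => unif d))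
      atTop (𝓝 c) := by
  obtain ⟨m, rfl⟩ : ∃ m, k = m + 1 := ⟨k - 1, by omega⟩
  obtain ⟨c, hc, hlim⟩ := lim m (by omega)
  refine ⟨c, hc, hlim.congr' ?_⟩
  filter_upwards [eventually_ge_atTop 1] with d hd
  rw [mm_eq d (m + 1) hd, sym d (m + 1) hd (by omega)]
  ring

end Pool.Agent.Run7.h717.SA.MomA
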